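import Pool.Agent.X188.MaxExp.Harm

set_option autoImplicit false

/-!
# MP_2ee812_an, Q1

The inequality `(∑ aᵢ⁻²)^(1/2) ≤ Sₙ(a₁, …, aₙ)` for the alternating sum of the reciprocals of the
subset sums holds for all positive reals exactly when `n ≤ 6`.
-/

open Finset

namespace Pool.Agent.Results.MP_2ee812_an.ValidIffAtMostSix

/-- The alternating sum `Sₙ(a₁, …, aₙ)` over the nonempty subsets `J` of the index set. -/
noncomputable def altSum {n : ℕ} (a : Fin n → ℝ) : ℝ :=
  ∑ J ∈ (Finset.univ : Finset (Finset (Fin n))) with J.Nonempty,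
    (-1 : ℝ) ^ (J.card + 1) * (∑ j ∈ J, a j)⁻¹

/-- The inequality `(∗)` is valid for `n`: it holds for every choice of `n` positive reals. -/
def Valid (n : ℕ) : Prop :=
  ∀ a : Fin n → ℝ, (∀ i, 0 < a i) → Real.sqrt (∑ i, (a i) ^ (-2 : ℤ)) ≤ altSum a

theorem altSum_eq {n : ℕ} (a : Fin n → ℝ) :
    altSum a = Pool.Agent.X188.MaxExp.S Finset.univ a := by
  unfold altSum Pool.Agent.X188.MaxExp.S
  have h : ((Finset.univ : Finset (Finset (Fin n))).filter (fun J => J.Nonempty)) =
      (Finset.univ : Finset (Fin n)).powerset.erase ∅ := by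
    ext J
    simp [Finset.nonempty_iff_ne_empty]
  rw [h]
  refine Finset.sum_congr rfl (fun J _ => by rw [div_eq_mul_inv])

theorem N_eq {n : ℕ} (a : Fin n → ℝ) :
    ∑ i, (a i) ^ (-2 : ℤ) = Pool.Agent.X188.MaxExp.N a := by
  unfold Pool.Agent.X188.MaxExp.N
  refine Finset.sum_congr rfl (fun i _ => ?_)
  rw [zpow_neg, one_div]
  norm_cast

/-- `(∗)` is valid for `n` if and only if `n ≤ 6`. -/
theorem result (n : ℕ) : Valid n ↔ n ≤ 6 := by
  constructor
  · intro hv
    by_contra hn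
    push Not at hn
    have h := hv (fun _ => 1) (fun _ => one_pos)
    rw [altSum_eq, Pool.Agent.X188.MaxExp.S_one] at h
    simp only [one_zpow, Finset.sum_const, Finset.card_univ, Fintype.card_fin, nsmul_eq_mul,
      mul_one] at h
    have h2 := Pool.Agent.X188.MaxExp.harmonic_sq_lt n hn
    have h3 : (Real.sqrt n) ^ 2 ≤ ((harmonic n : ℚ) : ℝ) ^ 2 :=
      pow_le_pow_left₀ (Real.sqrt_nonneg _) h 2
    rw [Real.sq_sqrt (by positivity)] at h3
    linarith
  · intro hn a ha
    have h := Pool.Agent.X188.MaxExp.main_ineq (ι := Fin n) (by simpa using hn) ha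
    rw [← N_eq, ← altSum_eq] at h
    have h0 : 0 ≤ altSum a := by
      rw [altSum_eq]
      exact Pool.Agent.X188.MaxExp.S_nonneg (fun j _ => ha j)
    exact Real.sqrt_le_iff.2 ⟨h0, h⟩

end Pool.Agent.Results.MP_2ee812_an.ValidIffAtMostSix
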